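import Pool.Agent.Helper50.HY.Stmts
import Pool.Agent.Helper67.PW.HA1

/-! Sheet HY, row HAC: the sharp Coulomb inequality in the variable of one electron. -/

set_option autoImplicit false

namespace Pool.Agent.Helper91.HY

open MeasureTheory Filter Topology Pool.Agent.Helper95.PW Pool.Agent.Helper67.PW
open Pool.Agent.Helper50.HY

/-- the regularized length -/
noncomputable def rr {n : ℕ} (k : Fin n) (e : ℝ) (x : Cf n) : ℝ := Real.sqrt (rh k x + e)

/-- the field -/
noncomputable def cf {n : ℕ} (k : Fin n) (i : Fin 3) (e : ℝ) (x : Cf n) : ℝ :=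
  x k i / rr k e x

theorem rr_pos {n : ℕ} (k : Fin n) {e : ℝ} (he : 0 < e) (x : Cf n) : 0 < rr k e x := by
  have := rh_nonneg k x
  exact Real.sqrt_pos.2 (by linarith)

theorem rr_sq {n : ℕ} (k : Fin n) {e : ℝ} (he : 0 < e) (x : Cf n) :
    rr k e x ^ 2 = rh k x + e := by
  have := rh_nonneg k x
  exact Real.sq_sqrt (by linarith)

theorem contDiff_rr {n : ℕ} (k : Fin n) (e : ℝ) (he : 0 < e) :
    ContDiff ℝ (⊤ : ℕ∞) (rr k e : Cf n → ℝ) := by
  unfold rr
  apply ContDiff.sqrt
  · exact (contDiff_rh k).add contDiff_const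
  · intro x
    have := rh_nonneg k x
    positivity

theorem contDiff_cf {n : ℕ} (k : Fin n) (i : Fin 3) (e : ℝ) (he : 0 < e) :
    ContDiff ℝ (⊤ : ℕ∞) (cf k i e : Cf n → ℝ) := by
  unfold cf
  apply ContDiff.div
  · fun_prop
  · exact contDiff_rr k e he
  · intro x
    exact (rr_pos k he x).ne'

theorem dv_cf {n : ℕ} (k : Fin n) (i : Fin 3) (e : ℝ) (he : 0 < e) (x : Cf n) :
    dv k i (cf k i e) x = (rr k e x ^ 2 - x k i ^ 2) / rr k e x ^ 3 := by
  have hR := rr_pos k he x
  have hR0 : rh k x + e ≠ 0 := by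
    have := rh_nonneg k x
    positivity
  have h1 : HasDerivAt (fun t : ℝ => cf k i e (x + t • (Pi.single k (Pi.single i 1) : Cf n)))
      (dv k i (cf k i e) x) 0 :=
    (((contDiff_cf k i e he).differentiable (by simp)) x).hasFDerivAt.hasLineDerivAt _
  have hco : ∀ (j : Fin 3) (t : ℝ),
      (x + t • (Pi.single k (Pi.single i 1) : Cf n)) k j = x k j + t * (if j = i then 1 else 0) := by
    intro j t
    simp [Pi.single_apply]
  have hj : ∀ j : Fin 3, HasDerivAt
      (fun t : ℝ => x k j + t * (if j = i then 1 else 0)) (if j = i then 1 else 0) 0 := by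
    intro j
    have h := ((hasDerivAt_id (0 : ℝ)).mul_const (if j = i then (1 : ℝ) else 0)).const_add (x k j)
    rw [one_mul] at h
    exact h
  have hfun : (fun t : ℝ => cf k i e (x + t • (Pi.single k (Pi.single i 1) : Cf n))) =
      fun t : ℝ => (x k i + t * (if i = i then 1 else 0)) /
        Real.sqrt ((x k 0 + t * (if 0 = i then 1 else 0)) ^ 2 +
          (x k 1 + t * (if 1 = i then 1 else 0)) ^ 2 +
          (x k 2 + t * (if 2 = i then 1 else 0)) ^ 2 + e) := by
    funext t
    unfold cf rr rh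
    rw [hco, hco, hco, hco]
  have h2 : HasDerivAt (fun t : ℝ => cf k i e (x + t • (Pi.single k (Pi.single i 1) : Cf n)))
      ((rr k e x ^ 2 - x k i ^ 2) / rr k e x ^ 3) 0 := by
    rw [hfun]
    have h3 : HasDerivAt (fun t : ℝ =>
        (x k 0 + t * (if 0 = i then 1 else 0)) ^ 2 + (x k 1 + t * (if 1 = i then 1 else 0)) ^ 2 +
          (x k 2 + t * (if 2 = i then 1 else 0)) ^ 2 + e)
        (2 * x k 0 * (if 0 = i then 1 else 0) + 2 * x k 1 * (if 1 = i then 1 else 0) +
          2 * x k 2 * (if 2 = i then 1 else 0)) 0 := by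
      have h4 := ((((hj 0).fun_pow 2).fun_add ((hj 1).fun_pow 2)).fun_add
        ((hj 2).fun_pow 2)).add_const e
      refine h4.congr_deriv ?_
      simp only [zero_mul, add_zero]
      norm_num
    have h3s := h3.sqrt (by
      simp only [zero_mul, add_zero]
      exact hR0)
    have h4 := (hj i).fun_div h3s (by
      simp only [zero_mul, add_zero]
      exact hR.ne')
    refine h4.congr_deriv ?_
    simp only [zero_mul, add_zero, if_true]
    have h5 : Real.sqrt (x k 0 ^ 2 + x k 1 ^ 2 + x k 2 ^ 2 + e) = rr k e x := rfl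
    rw [h5]
    have h6 : (2 * x k 0 * (if 0 = i then 1 else 0) + 2 * x k 1 * (if 1 = i then 1 else 0) +
          2 * x k 2 * (if 2 = i then 1 else 0) : ℝ) = 2 * x k i := by
      fin_cases i <;> simp
    rw [h6]
    field_simp
    try ring
  exact h1.unique h2

theorem coul_eps {n : ℕ} (k : Fin n) (v : Cf n → ℝ) (hv : ContDiff ℝ (⊤ : ℕ∞) v)
    (hc : HasCompactSupport v) (e l : ℝ) (he : 0 < e) (hl : 0 < l) :
    Integrable (fun x : Cf n => v x ^ 2 / rr k e x) ∧
    ∫ x, v x ^ 2 / rr k e x ≤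
      ((∫ x, ∑ i, dv k i v x ^ 2) + l ^ 2 / 4 * ∫ x, v x ^ 2) / l := by
  have hcv : ∀ i, Continuous (fun x => dv k i v x) := fun i =>
    (hv.continuous_fderiv (by simp)).clm_apply continuous_const
  have hcf : ∀ i, Continuous (fun x => dv k i (cf k i e) x) := fun i =>
    ((contDiff_cf k i e he).continuous_fderiv (by simp)).clm_apply continuous_const
  have hcdv : ∀ i, HasCompactSupport (fun x => dv k i v x) := by
    intro i
    have h1 := hc.fderiv (𝕜 := ℝ)
    exact h1.comp_left (g := fun L : Cf n →L[ℝ] ℝ => L (Pi.single k (Pi.single i 1))) rfl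
  have hint0 : Integrable (fun x : Cf n => v x ^ 2 / rr k e x) := by
    apply Continuous.integrable_of_hasCompactSupport
    · apply Continuous.div (hv.continuous.pow 2) (contDiff_rr k e he).continuous
      intro x
      exact (rr_pos k he x).ne'
    · have h1 : (fun x : Cf n => v x ^ 2 / rr k e x) =
          fun x => v x * (v x / rr k e x) := by
        funext x
        ring
      rw [h1]
      exact hc.mul_right
  have hint1 : ∀ i, Integrable (fun x => (v x * v x) * dv k i (cf k i e) x) := by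
    intro i
    apply Continuous.integrable_of_hasCompactSupport
    · exact (hv.continuous.mul hv.continuous).mul (hcf i)
    · exact (hc.mul_right).mul_right
  have hint2 : ∀ i, Integrable (fun x => (2 * v x * dv k i v x) * cf k i e x) := by
    intro i
    apply Continuous.integrable_of_hasCompactSupport
    · exact ((continuous_const.mul hv.continuous).mul (hcv i)).mul
        (contDiff_cf k i e he).continuous
    · exact ((hc.mul_left (f := fun _ => (2 : ℝ))).mul_right).mul_right
  have hint3 : Integrable (fun x => ∑ i, dv k i v x ^ 2) := by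
    apply integrable_finsetSum
    intro i _
    apply Continuous.integrable_of_hasCompactSupport
    · exact (hcv i).pow 2
    · have h1 : (fun x => dv k i v x ^ 2) = fun x => dv k i v x * dv k i v x := by
        funext x
        ring
      rw [h1]
      exact (hcdv i).mul_right
  have hint4 : Integrable (fun x => v x ^ 2) := by
    apply Continuous.integrable_of_hasCompactSupport
    · exact hv.continuous.pow 2
    · have h1 : (fun x => v x ^ 2) = fun x => v x * v x := by
        funext x
        ring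
      rw [h1]
      exact hc.mul_right
  refine ⟨hint0, ?_⟩
  have hadd : ∀ i, Integrable (fun x => (v x * v x) * dv k i (cf k i e) x +
      (2 * v x * dv k i v x) * cf k i e x) := fun i => (hint1 i).add (hint2 i)
  have hS : ∫ x, ∑ i, ((v x * v x) * dv k i (cf k i e) x +
      (2 * v x * dv k i v x) * cf k i e x) = 0 := by
    rw [integral_finsetSum _ (fun i _ => hadd i)]
    apply Finset.sum_eq_zero
    intro i _
    rw [integral_add (hint1 i) (hint2 i), ibp k i v (cf k i e) hv hc (contDiff_cf k i e he)]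
    ring
  have hSi : Integrable (fun x => ∑ i, ((v x * v x) * dv k i (cf k i e) x +
      (2 * v x * dv k i v x) * cf k i e x)) :=
    integrable_finsetSum _ (fun i _ => hadd i)
  have hpt : ∀ x, l * (v x ^ 2 / rr k e x) ≤
      (l / 2) * (∑ i, ((v x * v x) * dv k i (cf k i e) x +
        (2 * v x * dv k i v x) * cf k i e x)) +
        ((∑ i, dv k i v x ^ 2) + l ^ 2 / 4 * v x ^ 2) := by
    intro x
    simp only [dv_cf k _ e he, cf, Fin.sum_univ_three]
    have hr : rh k x = x k 0 ^ 2 + x k 1 ^ 2 + x k 2 ^ 2 := rfl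
    have hRx := rr_pos k he x
    have hle : rh k x ≤ rr k e x ^ 2 := by
      rw [rr_sq k he x]
      linarith
    generalize rr k e x = R at hRx hle ⊢
    generalize dv k 0 v x = d0
    generalize dv k 1 v x = d1
    generalize dv k 2 v x = d2
    generalize x k 0 = a0 at hr ⊢
    generalize x k 1 = a1 at hr ⊢
    generalize x k 2 = a2 at hr ⊢
    generalize v x = w
    rw [hr] at hle
    have hq : (a0 / R) ^ 2 + (a1 / R) ^ 2 + (a2 / R) ^ 2 ≤ 1 := by
      rw [div_pow, div_pow, div_pow, ← add_div, ← add_div, div_le_one (by positivity)]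
      exact hle
    have hI : (0 : ℝ) < 1 / R := by positivity
    have e0 : (R ^ 2 - a0 ^ 2) / R ^ 3 = 1 / R * (1 - (a0 / R) ^ 2) := by
      field_simp
    have e1 : (R ^ 2 - a1 ^ 2) / R ^ 3 = 1 / R * (1 - (a1 / R) ^ 2) := by
      field_simp
    have e2 : (R ^ 2 - a2 ^ 2) / R ^ 3 = 1 / R * (1 - (a2 / R) ^ 2) := by
      field_simp
    rw [e0, e1, e2, div_eq_mul_one_div (w ^ 2) R]
    generalize 1 / R = I at hI ⊢
    generalize a0 / R = b0 at hq ⊢
    generalize a1 / R = b1 at hq ⊢
    generalize a2 / R = b2 at hq ⊢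
    have h1 : 0 ≤ (l / 2) * (w ^ 2 * I) * (1 - (b0 ^ 2 + b1 ^ 2 + b2 ^ 2)) :=
      mul_nonneg (by positivity) (by linarith)
    have h2 : 0 ≤ (l ^ 2 / 4 * w ^ 2) * (1 - (b0 ^ 2 + b1 ^ 2 + b2 ^ 2)) :=
      mul_nonneg (by positivity) (by linarith)
    nlinarith [h1, h2, sq_nonneg (d0 + l / 2 * w * b0), sq_nonneg (d1 + l / 2 * w * b1),
      sq_nonneg (d2 + l / 2 * w * b2)]
  have hBi : Integrable (fun x => (∑ i, dv k i v x ^ 2) + l ^ 2 / 4 * v x ^ 2) :=
    hint3.add (hint4.const_mul _)
  have hB : ∫ x, ((∑ i, dv k i v x ^ 2) + l ^ 2 / 4 * v x ^ 2) =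
      (∫ x, ∑ i, dv k i v x ^ 2) + l ^ 2 / 4 * ∫ x, v x ^ 2 := by
    rw [integral_add hint3 (hint4.const_mul (l ^ 2 / 4)), integral_const_mul]
  have hmono := integral_mono (hint0.const_mul l) ((hSi.const_mul (l / 2)).add hBi) hpt
  simp only [Pi.add_apply] at hmono
  rw [integral_const_mul, integral_add (hSi.const_mul (l / 2)) hBi, integral_const_mul, hS, hB]
    at hmono
  rw [le_div_iff₀ hl]
  linarith

theorem coul0 {n : ℕ} (k : Fin n) (v : Cf n → ℝ) (hv : ContDiff ℝ (⊤ : ℕ∞) v)
    (hc : HasCompactSupport v) (l : ℝ) (hl : 0 < l) :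
    Integrable (fun x : Cf n => v x ^ 2 / nr (x k)) ∧
    ∫ x, v x ^ 2 / nr (x k) ≤
      ((∫ x, ∑ i, dv k i v x ^ 2) + l ^ 2 / 4 * ∫ x, v x ^ 2) / l := by
  have hnr : ∀ x : Cf n, nr (x k) = Real.sqrt (rh k x) := fun x => rfl
  have hn0 : ∀ x : Cf n, 0 ≤ nr (x k) := fun x => Real.sqrt_nonneg _
  have hnn : ∀ x : Cf n, 0 ≤ v x ^ 2 / nr (x k) := fun x => div_nonneg (sq_nonneg _) (hn0 x)
  have hmeas : Measurable (fun x : Cf n => v x ^ 2 / nr (x k)) := by
    simp only [hnr]
    exact (hv.continuous.measurable.pow_const 2).div (contDiff_rh k).continuous.measurable.sqrt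
  set K : ℝ := ((∫ x, ∑ i, dv k i v x ^ 2) + l ^ 2 / 4 * ∫ x, v x ^ 2) / l with hKd
  have hK : 0 ≤ K := by
    have h1 : 0 ≤ ∫ x, ∑ i, dv k i v x ^ 2 :=
      integral_nonneg (fun x => Finset.sum_nonneg (fun i _ => sq_nonneg _))
    have h2 : 0 ≤ ∫ x, v x ^ 2 := integral_nonneg (fun x => sq_nonneg _)
    positivity
  have hlin : ∫⁻ x, ENNReal.ofReal (v x ^ 2 / nr (x k)) ≤ ENNReal.ofReal K := by
    have h1 : ∀ j : ℕ, ∫⁻ x, ENNReal.ofReal (v x ^ 2 / rr k (1 / ((j : ℝ) + 1)) x) ≤
        ENNReal.ofReal K := by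
      intro j
      have he : 0 < 1 / ((j : ℝ) + 1) := by positivity
      obtain ⟨h2, h3⟩ := coul_eps k v hv hc (1 / ((j : ℝ) + 1)) l he hl
      rw [← ofReal_integral_eq_lintegral_ofReal h2
        (ae_of_all _ (fun x => div_nonneg (sq_nonneg _) (rr_pos k he x).le))]
      exact ENNReal.ofReal_le_ofReal h3
    have h4 : ∀ x : Cf n, ENNReal.ofReal (v x ^ 2 / nr (x k)) ≤
        liminf (fun j : ℕ => ENNReal.ofReal (v x ^ 2 / rr k (1 / ((j : ℝ) + 1)) x)) atTop := by
      intro x
      rw [hnr]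
      rcases (rh_nonneg k x).eq_or_lt with h0 | h0
      · rw [← h0, Real.sqrt_zero, div_zero, ENNReal.ofReal_zero]
        exact bot_le
      · apply le_of_eq
        symm
        apply Tendsto.liminf_eq
        apply ENNReal.tendsto_ofReal
        apply Tendsto.div tendsto_const_nhds _ (Real.sqrt_pos.2 h0).ne'
        have h5 := (tendsto_one_div_add_atTop_nhds_zero_nat (𝕜 := ℝ)).const_add (rh k x)
        rw [add_zero] at h5
        exact (Real.continuous_sqrt.tendsto _).comp h5
    calc ∫⁻ x, ENNReal.ofReal (v x ^ 2 / nr (x k))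
        ≤ ∫⁻ x, liminf (fun j : ℕ =>
            ENNReal.ofReal (v x ^ 2 / rr k (1 / ((j : ℝ) + 1)) x)) atTop :=
          lintegral_mono h4
      _ ≤ liminf (fun j : ℕ => ∫⁻ x,
            ENNReal.ofReal (v x ^ 2 / rr k (1 / ((j : ℝ) + 1)) x)) atTop := by
          apply lintegral_liminf_le
          intro j
          apply ENNReal.measurable_ofReal.comp
          exact (hv.continuous.measurable.pow_const 2).div
            (contDiff_rr k _ (by positivity)).continuous.measurable
      _ ≤ ENNReal.ofReal K := by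
          apply liminf_le_of_le
          · isBoundedDefault
          · intro b hb
            obtain ⟨j, hj⟩ := hb.exists
            exact hj.trans (h1 j)
  have hint : Integrable (fun x : Cf n => v x ^ 2 / nr (x k)) := by
    refine ⟨hmeas.aestronglyMeasurable, ?_⟩
    rw [hasFiniteIntegral_iff_ofReal (ae_of_all _ hnn)]
    exact lt_of_le_of_lt hlin ENNReal.ofReal_lt_top
  refine ⟨hint, ?_⟩
  rw [integral_eq_lintegral_of_nonneg_ae (ae_of_all _ hnn) hmeas.aestronglyMeasurable]
  exact ENNReal.toReal_le_of_le_ofReal hK hlin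

theorem HAC : ST_HAC := by
  intro n k a v l hv hc hl
  let c : Cf n := fun _ => a
  let w : Cf n → ℝ := fun x => v (x + c)
  have hw : ContDiff ℝ (⊤ : ℕ∞) w := hv.comp (contDiff_id.add contDiff_const)
  have hwc : HasCompactSupport w := hc.comp_homeomorph (Homeomorph.addRight c)
  have hdv : ∀ i x, dv k i w x = dv k i v (x + c) := by
    intro i x
    unfold dv
    rw [show w = fun x => v (x + c) from rfl, fderiv_comp_add_right]
  have e1 : (fun x : Cf n => w x ^ 2 / nr (x k)) =
      fun x => (fun x : Cf n => v x ^ 2 / nr (x k - a)) (x + c) := by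
    funext x
    simp only [w, c, Pi.add_apply, add_sub_cancel_right]
  have e2 : ∫ x : Cf n, w x ^ 2 / nr (x k) = ∫ x : Cf n, v x ^ 2 / nr (x k - a) := by
    rw [e1]
    exact integral_add_right_eq_self (fun x : Cf n => v x ^ 2 / nr (x k - a)) c
  have e3 : ∫ x : Cf n, ∑ i, dv k i w x ^ 2 = ∫ x : Cf n, ∑ i, dv k i v x ^ 2 := by
    simp only [hdv]
    exact integral_add_right_eq_self (fun x : Cf n => ∑ i, dv k i v x ^ 2) c
  have e4 : ∫ x : Cf n, w x ^ 2 = ∫ x : Cf n, v x ^ 2 :=
    integral_add_right_eq_self (fun x : Cf n => v x ^ 2) c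
  have h1 := (coul0 k w hw hwc 1 one_pos).1
  rw [e1] at h1
  have h3 := h1.comp_add_right (-c)
  simp only [neg_add_cancel_right] at h3
  refine ⟨h3, ?_⟩
  rcases hl.eq_or_lt with h0 | h0
  · rw [← h0]
    have h4 : 0 ≤ ∫ x : Cf n, ∑ i, dv k i v x ^ 2 :=
      integral_nonneg (fun x => Finset.sum_nonneg (fun i _ => sq_nonneg _))
    linarith
  · have h4 := (coul0 k w hw hwc l h0).2
    rw [e2, e3, e4, le_div_iff₀ h0] at h4
    linarith

end Pool.Agent.Helper91.HY
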